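import Mathlib

namespace Pool.Agent.Results.MP_9cf868_co.Counter
open SimpleGraph

/-- vertices joined to X by a red edge (colour true) and by a blue edge (colour false). -/
def NRB {V : Type} (G : SimpleGraph V) (col : Sym2 V → Bool) (X : Set V) : Set V :=
  {v | (∃ x ∈ X, G.Adj v x ∧ col s(v, x) = true) ∧ ∃ x ∈ X, G.Adj v x ∧ col s(v, x) = false}

/-- G has an alternating path containing every vertex of A. -/
def AltCover {V : Type} (G : SimpleGraph V) (col : Sym2 V → Bool) (A : Set V) : Prop :=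
  ∃ (u v : V) (p : G.Walk u v), p.IsPath ∧ (p.edges.map col).IsChain (· ≠ ·) ∧
    ∀ a ∈ A, a ∈ p.support

def C : Matrix (Fin 7) (Fin 7) ℕ := !![0,0,0,0,0,2,1; 0,0,0,0,0,1,2; 0,0,0,0,1,1,1; 0,0,0,0,2,2,2;
  0,0,1,2,0,0,0; 2,1,1,2,0,0,0; 1,2,1,2,0,0,0]

def G : SimpleGraph (Fin 7) where
  Adj a b := C a b ≠ 0
  symm := ⟨by decide⟩
  loopless := ⟨by decide⟩

instance : DecidableRel G.Adj := fun a b => inferInstanceAs (Decidable (C a b ≠ 0))

def col : Sym2 (Fin 7) → Bool := Sym2.lift ⟨fun a b => C a b == 1, by decide⟩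

def ok : ℕ → Fin 7 → List Bool → List (Fin 7) → Bool
  | 0, _, _, _ => false
  | n + 1, u, c, vis => decide (∀ a : Fin 7, a.val < 4 → a ∈ u :: vis) ||
      decide (∃ w, (G.Adj u w ∧ w ∉ u :: vis ∧ col s(u, w) ∉ c) ∧
        ok n w [col s(u, w)] (u :: vis) = true)

lemma srch {u v : Fin 7} (p : G.Walk u v) : ∀ n (c : List Bool) vis, p.length < n → p.IsPath →
    (∀ x ∈ p.support, x ∉ vis) → (p.edges.map col).IsChain (· ≠ ·) →
    (∀ x ∈ (p.edges.map col).head?, x ∉ c) → (∀ a : Fin 7, a.val < 4 → a ∈ vis ∨ a ∈ p.support) →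
    ok n u c vis = true := by
  induction p with
  | nil =>
    rintro (_ | n) c vis h1 - - - - h6
    · simp at h1
    · simp only [ok, Bool.or_eq_true, decide_eq_true_eq]
      exact .inl fun a ha => by simpa [or_comm] using h6 a ha
  | @cons u w v e p ih =>
    rintro (_ | n) c vis h1 h2 h3 h4 h5 h6
    · simp at h1
    rw [Walk.cons_isPath_iff] at h2
    have k : ∀ x ∈ p.support, x ∉ u :: vis := fun x hx m =>
      (List.mem_cons.mp m).elim (fun e => h2.2 (e ▸ hx)) (h3 x (by simp [hx]))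
    rw [Walk.edges_cons, List.map_cons, List.isChain_cons] at h4
    simp only [ok, Bool.or_eq_true, decide_eq_true_eq]
    refine .inr ⟨w, ⟨e, k w p.start_mem_support, h5 _ (by simp)⟩, ih n _ _ (by simpa using h1) h2.1 k
      h4.2 (fun x hx m => h4.1 x hx (List.mem_singleton.mp m).symm) fun a ha => ?_⟩
    have := h6 a ha
    simp only [Walk.support_cons, List.mem_cons] at this ⊢
    tauto

lemma no : ∀ u, ok 7 u [] [] = false := by decide +kernel

lemma hall : ∀ X : Finset (Fin 7), (∀ x ∈ X, x.val < 4) → X.card - 1 ≤ (Finset.univ.filter fun v =>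
    (∃ x ∈ X, G.Adj v x ∧ col s(v, x) = true) ∧ ∃ x ∈ X, G.Adj v x ∧ col s(v, x) = false).card := by
  decide +kernel

theorem result : ¬ ∀ (V : Type) [Finite V] (G : SimpleGraph V) (A : Set V) (col : Sym2 V → Bool),
    (∀ u v, G.Adj u v → (u ∈ A ↔ v ∉ A)) → (∀ X ⊆ A, X.ncard - 1 ≤ (NRB G col X).ncard) →
    AltCover G col A := by
  intro h
  obtain ⟨u, v, p, h1, h2, h3⟩ := h (Fin 7) G {x | x.val < 4} col (by decide +kernel) (fun X hX => by
    obtain ⟨X, rfl⟩ := (Set.toFinite X).exists_finset_coe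
    have := hall X hX
    rw [← Set.ncard_coe_finset, ← Set.ncard_coe_finset] at this
    simpa [NRB] using this)
  have := srch p 7 [] [] (by simpa using h1.length_lt) h1 (by simp) h2 (by simp)
    fun a ha => .inr (h3 a ha)
  simp [no] at this

end Pool.Agent.Results.MP_9cf868_co.Counter
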